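import Pool.Agent.R221.Om.Final

set_option autoImplicit false

open Filter Topology Set Pool.Agent.R221.Om

namespace Pool.Agent.Results.MP_68e822_an.AssouadNotResidual

/-- There is a concave modulus `ω` with `ω(t)/t → ∞` and a ball of `(C^ω[0,1], ‖·‖_ω)` all of whose
elements have graphs of Assouad dimension less than two; so the set of `f` whose graph has Assouad
dimension two is not residual and the set of `f` with a graph of smaller dimension is not meagre. -/
theorem result : ∃ (ω : ℝ → ℝ) (_ : Fact (IsModulus ω)),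
    ConcaveOn ℝ (Icc 0 1) ω ∧ Tendsto (fun t => ω t / t) (𝓝[>] 0) atTop ∧
    (∃ (f : CSpace ω) (ε : ℝ), 0 < ε ∧ ∀ g : CSpace ω, dist g f < ε →
      dimA (graph g.toFun) < 2) ∧
    ¬ IsMeagre {f : CSpace ω | dimA (graph f.toFun) < 2} ∧
    {f : CSpace ω | dimA (graph f.toFun) = 2} ∉ residual (CSpace ω) := by
  have hball : Metric.ball f0 (1 / 96) ⊆ {f : CSpace Real.sqrt | dimA (graph f.toFun) < 2} :=
    fun g hg => dimA_lt g hg
  have hmeagre : ¬ IsMeagre {f : CSpace Real.sqrt | dimA (graph f.toFun) < 2} := fun h =>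
    not_isMeagre_of_isOpen Metric.isOpen_ball ⟨f0, Metric.mem_ball_self (by norm_num)⟩
      (h.mono hball)
  refine ⟨Real.sqrt, sqrtFact, sqrt_concave, sqrt_ratio,
    ⟨f0, 1 / 96, by norm_num, fun g hg => dimA_lt g hg⟩, hmeagre, fun h => hmeagre ?_⟩
  unfold IsMeagre
  refine mem_of_superset h ?_
  intro f hf hlt
  have h1 : dimA (graph f.toFun) = 2 := hf
  have h2 : dimA (graph f.toFun) < 2 := hlt
  exact absurd h1 h2.ne

end Pool.Agent.Results.MP_68e822_an.AssouadNotResidual
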